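import Mathlib
import Pool.Agent.K9h23.Bnd.Gr

/-!
One minus the mean of the powers.
-/

set_option autoImplicit false

open Complex Set Metric Filter Topology

namespace Pool.Agent.K9h23.Loc

open Pool.Agent.K9h23.Hom Pool.Agent.K9h23.Bnd

/-- the coefficients -/
noncomputable def cf (M k : ℕ) (w : ℂ) : ℂ :=
  (if k = 0 then 1 else 0) - (if k < M then (M : ℂ)⁻¹ * w ^ k else 0)

/-- one minus the mean of the powers -/
noncomputable def gf (M : ℕ) (w : ℂ) : ℂ := 1 - (M : ℂ)⁻¹ * ∑ k ∈ Finset.range M, w ^ k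

theorem cf_zero {M k : ℕ} (hM : 1 ≤ M) (hk : M ≤ k) (w : ℂ) : cf M k w = 0 := by
  unfold cf
  rw [if_neg (by omega), if_neg (by omega), sub_zero]

theorem cf_sum {M : ℕ} (hM : 1 ≤ M) (w : ℂ) : ∑ k ∈ Finset.range M, cf M k w = gf M w := by
  unfold cf gf
  rw [Finset.sum_sub_distrib, Finset.mul_sum]
  congr 1
  · rw [Finset.sum_ite_eq' (Finset.range M) 0 (fun _ => (1:ℂ)), if_pos (Finset.mem_range.2 hM)]
  · refine Finset.sum_congr rfl fun k hk => ?_
    rw [if_pos (Finset.mem_range.1 hk)]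

theorem cf_hasSum {M : ℕ} (hM : 1 ≤ M) (w : ℂ) : HasSum (fun k => cf M k w) (gf M w) := by
  rw [← cf_sum hM]
  refine hasSum_sum_of_ne_finset_zero fun k hk => ?_
  rw [Finset.mem_range, not_lt] at hk
  exact cf_zero hM hk w

theorem gf_le {M : ℕ} (hM : 1 ≤ M) {w : ℂ} (hw : ‖w‖ ≤ 1) : ‖gf M w‖ ≤ 2 := by
  have hM0 : (0:ℝ) < M := by exact_mod_cast hM
  unfold gf
  refine (norm_sub_le _ _).trans ?_
  rw [norm_one, norm_mul, norm_inv, Complex.norm_natCast]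
  have h1 : ‖∑ k ∈ Finset.range M, w ^ k‖ ≤ M := by
    refine (norm_sum_le _ _).trans ((Finset.sum_le_card_nsmul _ _ 1 fun k _ => ?_).trans ?_)
    · rw [norm_pow]
      exact pow_le_one₀ (norm_nonneg _) hw
    · rw [Finset.card_range, nsmul_eq_mul, mul_one]
  have h2 : (M:ℝ)⁻¹ * ‖∑ k ∈ Finset.range M, w ^ k‖ ≤ (M:ℝ)⁻¹ * M :=
    mul_le_mul_of_nonneg_left h1 (by positivity)
  rw [inv_mul_cancel₀ hM0.ne'] at h2
  linarith

theorem one_sub_pow_le {w : ℂ} (hw : ‖w‖ ≤ 1) (k : ℕ) : ‖1 - w ^ k‖ ≤ k * ‖1 - w‖ := by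
  induction k with
  | zero => simp
  | succ k ih =>
    have e : 1 - w ^ (k + 1) = (1 - w ^ k) + w ^ k * (1 - w) := by ring
    rw [e]
    refine (norm_add_le _ _).trans ?_
    rw [norm_mul, norm_pow]
    have h1 : ‖w‖ ^ k ≤ 1 := pow_le_one₀ (norm_nonneg _) hw
    have h2 : ‖w‖ ^ k * ‖1 - w‖ ≤ 1 * ‖1 - w‖ := mul_le_mul_of_nonneg_right h1 (norm_nonneg _)
    push_cast
    linarith

theorem gf_near {M : ℕ} (hM : 1 ≤ M) {w : ℂ} (hw : ‖w‖ ≤ 1) : ‖gf M w‖ ≤ M * ‖1 - w‖ := by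
  have hM0 : (0:ℝ) < M := by exact_mod_cast hM
  have hMc : (M:ℂ) ≠ 0 := by exact_mod_cast hM0.ne'
  have e : gf M w = (M : ℂ)⁻¹ * ∑ k ∈ Finset.range M, (1 - w ^ k) := by
    unfold gf
    rw [Finset.sum_sub_distrib, Finset.sum_const, Finset.card_range, nsmul_eq_mul, mul_one,
      mul_sub, inv_mul_cancel₀ hMc]
  rw [e, norm_mul, norm_inv, Complex.norm_natCast]
  have h1 : ‖∑ k ∈ Finset.range M, (1 - w ^ k)‖ ≤ M * (M * ‖1 - w‖) := by
    refine (norm_sum_le _ _).trans ((Finset.sum_le_card_nsmul _ _ (M * ‖1 - w‖) fun k hk => ?_).trans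
      (le_of_eq ?_))
    · refine (one_sub_pow_le hw k).trans (mul_le_mul_of_nonneg_right ?_ (norm_nonneg _))
      exact_mod_cast (Finset.mem_range.1 hk).le
    · rw [Finset.card_range, nsmul_eq_mul]
  calc (M:ℝ)⁻¹ * ‖∑ k ∈ Finset.range M, (1 - w ^ k)‖ ≤ (M:ℝ)⁻¹ * (M * (M * ‖1 - w‖)) :=
        mul_le_mul_of_nonneg_left h1 (by positivity)
    _ = M * ‖1 - w‖ := by rw [← mul_assoc, inv_mul_cancel₀ hM0.ne', one_mul]

theorem gf_far {M : ℕ} (hM : 1 ≤ M) {w : ℂ} (hw : ‖w‖ ≤ 1) (h8 : 8 ≤ M * ‖1 - w‖) :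
    3 / 4 ≤ ‖gf M w‖ := by
  have hM0 : (0:ℝ) < M := by exact_mod_cast hM
  have h0 : 0 < ‖1 - w‖ := by
    by_contra hcon
    have : ‖1 - w‖ = 0 := le_antisymm (not_lt.1 hcon) (norm_nonneg _)
    rw [this, mul_zero] at h8
    linarith
  have h1 : (∑ k ∈ Finset.range M, w ^ k) * (1 - w) = 1 - w ^ M := by
    have := geom_sum_mul_neg w M
    exact this
  have h2 : ‖∑ k ∈ Finset.range M, w ^ k‖ * ‖1 - w‖ ≤ 2 := by
    rw [← norm_mul, h1]
    refine (norm_sub_le _ _).trans ?_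
    rw [norm_one, norm_pow]
    have := pow_le_one₀ (norm_nonneg w) hw (n := M)
    linarith
  have h3 : (M:ℝ)⁻¹ * ‖∑ k ∈ Finset.range M, w ^ k‖ ≤ 1 / 4 := by
    rw [inv_mul_le_iff₀ hM0]
    by_contra hcon
    push Not at hcon
    have h4 : M * (1 / 4) * ‖1 - w‖ < ‖∑ k ∈ Finset.range M, w ^ k‖ * ‖1 - w‖ :=
      mul_lt_mul_of_pos_right hcon h0
    linarith
  have h5 : ‖(1:ℂ)‖ - ‖(M : ℂ)⁻¹ * ∑ k ∈ Finset.range M, w ^ k‖ ≤ ‖gf M w‖ := by
    unfold gf
    exact norm_sub_norm_le _ _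
  rw [norm_one, norm_mul, norm_inv, Complex.norm_natCast] at h5
  linarith

variable {m : ℕ}

theorem Hm.cst (k : ℕ) (a : ℂ) : Hm k (fun _ : E m => if k = 0 then a else 0) := by
  refine ⟨differentiable_const _, fun c z => ?_⟩
  by_cases hk : k = 0
  · rw [if_pos hk, hk, pow_zero, one_mul]
  · rw [if_neg hk, mul_zero]

theorem Hm.cfi (M k : ℕ) (p : E m) : Hm k (fun z : E m => cf M k (inner ℂ p z)) := by
  have hd : Differentiable ℂ (fun z : E m => (inner ℂ p z : ℂ)) := (innerSL ℂ p).differentiable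
  unfold cf
  refine ⟨?_, fun c z => ?_⟩
  · by_cases hk : k < M
    · simp only [if_pos hk]
      exact (differentiable_const _).sub ((differentiable_const _).mul (hd.pow k))
    · simp only [if_neg hk]
      exact (differentiable_const _).sub (differentiable_const _)
  · have e : (inner ℂ p (c • z) : ℂ) = c * inner ℂ p z := inner_smul_right _ _ _
    rw [e]
    by_cases hk0 : k = 0
    · subst hk0
      simp
    · rw [if_neg hk0]
      by_cases hk : k < M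
      · simp only [if_pos hk, mul_pow]
        ring
      · simp only [if_neg hk]
        ring

end Pool.Agent.K9h23.Loc
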