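import Mathlib
import Pool.Agent.K9h23.Mix.Dm
import Pool.Agent.K9h23.Loc.Fej

/-!
Near a boundary point the low part of an expansion may be replaced by a constant.
-/

set_option autoImplicit false

open Complex Set Metric Filter Topology
open scoped Real

namespace Pool.Agent.K9h23.Loc

open Pool.Agent.K9h23.Hom Pool.Agent.K9h23.Bnd Pool.Agent.K9h23.Mix
open Pool.Agent.K9h23.Lac (nsq nsq_nonneg nsq_cont nsq_c nn nn_nonneg nn_sq nn_add_le le_nsq
  nsq_smul' bd bd_le_nn comp_le_nn nsq_conj nn_le_comp Bal isOpen_Bal)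

variable {m N : ℕ}

/-- one more component -/
noncomputable def sn (v : Fin N → ℂ) (b : ℂ) : Fin (N + 1) → ℂ := Fin.snoc (α := fun _ => ℂ) v b

theorem sn_c (v : Fin N → ℂ) (b : ℂ) (j : Fin N) : sn v b j.castSucc = v j := by
  unfold sn
  rw [Fin.snoc_castSucc]

theorem sn_l (v : Fin N → ℂ) (b : ℂ) : sn v b (Fin.last N) = b := by
  unfold sn
  rw [Fin.snoc_last]

theorem sn_ext {x : Fin (N + 1) → ℂ} {v : Fin N → ℂ} {b : ℂ} (h : ∀ j, x (Fin.castSucc j) = v j)
    (h' : x (Fin.last N) = b) : x = sn v b := by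
  funext j
  refine Fin.lastCases ?_ (fun j => ?_) j
  · rw [sn_l, h']
  · rw [sn_c, h]

theorem nsq_sn (v : Fin N → ℂ) (b : ℂ) : nsq (sn v b) = nsq v + ‖b‖ ^ 2 := by
  unfold nsq
  rw [Fin.sum_univ_castSucc, sn_l]
  simp_rw [sn_c]

theorem bd_sn (v v' : Fin N → ℂ) (b b' : ℂ) : bd (sn v b) (sn v' b') = bd v v' + b * b' := by
  unfold bd
  rw [Fin.sum_univ_castSucc, sn_l, sn_l]
  simp_rw [sn_c]

theorem nn_neg' (v : Fin N → ℂ) : nn (fun j => -v j) = nn v := by
  unfold nn nsq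
  simp

theorem nn_sub_le (u v : Fin N → ℂ) : nn (fun j => u j - v j) ≤ nn u + nn v := by
  have h := nn_add_le u (fun j => -v j)
  rw [nn_neg'] at h
  simpa only [sub_eq_add_neg] using h

theorem nn_sn_z (v : Fin N → ℂ) : nn (sn v 0) = nn v := by
  unfold nn
  rw [nsq_sn]
  simp

theorem nn_sn_l (v : Fin N → ℂ) (b : ℂ) : nn v ≤ nn (sn v b) := by
  unfold nn
  refine Real.sqrt_le_sqrt ?_
  rw [nsq_sn]
  nlinarith [sq_nonneg ‖b‖]

theorem norm_eighth : ‖(1 / 8 : ℂ)‖ = 1 / 8 := by norm_num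

/-- the new homogeneous terms -/
noncomputable def Ht (M d : ℕ) (p : E m) (a : Fin N → ℂ) (H : ℕ → E m → Fin N → ℂ) (k : ℕ)
    (z : E m) : Fin (N + 1) → ℂ :=
  sn (fun j => (1 / 8 : ℂ) * ((if k = 0 then a j else 0) + (if k ≤ d then 0 else H k z j)))
    ((1 / 8 : ℂ) * cf M k (inner ℂ p z))

/-- the new data -/
noncomputable def ft (M d : ℕ) (p : E m) (a : Fin N → ℂ) (u : ℕ → ℕ) (H : ℕ → E m → Fin N → ℂ)
    (f : E m → Fin N → ℂ) (z : E m) : Fin (N + 1) → ℂ :=
  sn (fun j => (1 / 8 : ℂ) * (a j + (f z j - Fu d u H 0 z j))) ((1 / 8 : ℂ) * gf M (inner ℂ p z))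

variable {d : ℕ} {l u : ℕ → ℕ} {H : ℕ → E m → Fin N → ℂ} {f : E m → Fin N → ℂ}

theorem Ht_high {M : ℕ} (hd : 1 ≤ d) (hdM : d ≤ M) {k : ℕ} (hk : M < k) (p : E m)
    (a : Fin N → ℂ) (z : E m) : Ht M d p a H k z = sn (fun j => (1 / 8 : ℂ) * H k z j) 0 := by
  unfold Ht
  rw [cf_zero (by omega) (by omega), mul_zero]
  congr 1
  funext j
  rw [if_neg (by omega), if_neg (by omega), zero_add]

theorem inner_le_one' {p z : E m} (hp : ‖p‖ = 1) (hz : ‖z‖ ≤ 1) : ‖(inner ℂ p z : ℂ)‖ ≤ 1 := by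
  refine (norm_inner_le_norm p z).trans ?_
  rw [hp, one_mul]
  exact hz

theorem dm_t (D : DM d l u H f) (hd : 1 ≤ d) {M : ℕ} (hdM : d ≤ M) (hM : M < l 0) {p : E m}
    (hp : ‖p‖ = 1) {a : Fin N → ℂ} (ha : nn a ≤ 2)
    (hF : ∀ z, ‖z‖ ≤ 1 → nn (Fu d u H 0 z) ≤ 2) : DM M l u (Ht M d p a H) (ft M d p a u H f) := by
  have hM1 : 1 ≤ M := by omega
  refine ⟨fun k j => ?_, fun z hz j => ?_, fun k hk hkl z j => ?_, fun z hz => ?_, hM, D.lu, D.ll⟩
  · refine Fin.lastCases ?_ (fun j => ?_) j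
    · have e : (fun z => Ht M d p a H k z (Fin.last N)) =
          fun z => (1 / 8 : ℂ) * cf M k (inner ℂ p z) := funext fun z => sn_l _ _
      rw [e]
      exact (Hm.cfi M k p).smul _
    · have e : (fun z => Ht M d p a H k z j.castSucc) = fun z => (1 / 8 : ℂ) *
          ((if k = 0 then a j else 0) + (if k ≤ d then 0 else H k z j)) :=
        funext fun z => sn_c _ _ _
      rw [e]
      refine Bnd.Hm.smul ((Hm.cst k (a j)).add ?_) _
      by_cases hk : k ≤ d
      · simp only [if_pos hk]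
        exact Bnd.Hm.zero k
      · simp only [if_neg hk]
        exact D.Hd k j
  · refine Fin.lastCases ?_ (fun j => ?_) j
    · have e : (fun k => Ht M d p a H k z (Fin.last N)) =
          fun k => (1 / 8 : ℂ) * cf M k (inner ℂ p z) := funext fun k => sn_l _ _
      have e' : ft M d p a u H f z (Fin.last N) = (1 / 8 : ℂ) * gf M (inner ℂ p z) := sn_l _ _
      rw [e, e']
      exact (cf_hasSum hM1 _).mul_left _
    · have e : (fun k => Ht M d p a H k z j.castSucc) = fun k => (1 / 8 : ℂ) *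
          ((if k = 0 then a j else 0) + (if k ≤ d then 0 else H k z j)) :=
        funext fun k => sn_c _ _ _
      have e' : ft M d p a u H f z j.castSucc =
          (1 / 8 : ℂ) * (a j + (f z j - Fu d u H 0 z j)) := sn_c _ _ _
      rw [e, e']
      have h1 : HasSum (fun k => if k = 0 then a j else 0) (a j) := hasSum_ite_eq 0 (a j)
      have h2 : HasSum (fun k => if k ≤ d then H k z j else 0) (Fu d u H 0 z j) := by
        have h3 : Fu d u H 0 z j =
            ∑ k ∈ Finset.range (d + 1), (if k ≤ d then H k z j else 0) := by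
          unfold Fu cut
          refine Finset.sum_congr rfl fun k hk => ?_
          have : k < d + 1 := Finset.mem_range.1 hk
          rw [if_pos (by omega)]
        rw [h3]
        refine hasSum_sum_of_ne_finset_zero fun k hk => ?_
        rw [Finset.mem_range] at hk
        rw [if_neg (by omega)]
      have h4 : HasSum (fun k => if k ≤ d then 0 else H k z j) (f z j - Fu d u H 0 z j) := by
        have h5 := (D.Hs z hz j).sub h2
        have e5 : (fun k => H k z j - if k ≤ d then H k z j else 0) =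
            fun k => if k ≤ d then 0 else H k z j := by
          funext k
          by_cases hk : k ≤ d
          · rw [if_pos hk, if_pos hk, sub_self]
          · rw [if_neg hk, if_neg hk, sub_zero]
        rwa [e5] at h5
      exact (h1.add h4).mul_left _
  · rw [Ht_high hd hdM hk]
    refine Fin.lastCases ?_ (fun j => ?_) j
    · rw [sn_l]
    · rw [sn_c, D.sp k (by omega) hkl, mul_zero]
  · refine Pool.Agent.K9h23.Lac.nn_le_of zero_le_one ?_
    unfold ft
    rw [nsq_sn, nsq_smul', norm_mul, norm_eighth]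
    have h1 := gf_le hM1 (inner_le_one' hp hz.le)
    have h2 : nn (fun j => a j + (f z j - Fu d u H 0 z j)) ≤ 5 := by
      refine (nn_add_le _ _).trans ?_
      have h3 := nn_sub_le (f z) (Fu d u H 0 z)
      have h4 := D.fb z hz
      have h5 := hF z hz.le
      linarith
    rw [← nn_sq]
    have h3 := nn_nonneg (fun j => a j + (f z j - Fu d u H 0 z j))
    have h4 := norm_nonneg (gf M (inner ℂ p z))
    nlinarith

theorem Qu_t (D : DM d l u H f) (hd : 1 ≤ d) {M : ℕ} (hdM : d ≤ M) (hM : M < l 0) (p : E m)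
    (a : Fin N → ℂ) (i : ℕ) (z : E m) :
    Qu l u (Ht M d p a H) i z = sn (fun j => (1 / 8 : ℂ) * Qu l u H i z j) 0 := by
  have hl : M < l i := hM.trans_le (D.lm.monotone (Nat.zero_le i))
  have h1 : ∀ k ∈ Finset.Icc (l i) (u i), Ht M d p a H k z =
      sn (fun j => (1 / 8 : ℂ) * H k z j) 0 := fun k hk =>
    Ht_high hd hdM (hl.trans_le (Finset.mem_Icc.1 hk).1) p a z
  refine sn_ext (fun j => ?_) ?_
  · unfold Qu
    rw [Finset.mul_sum]
    refine Finset.sum_congr rfl fun k hk => ?_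
    rw [h1 k hk, sn_c]
  · unfold Qu
    refine Finset.sum_eq_zero fun k hk => ?_
    rw [h1 k hk, sn_l]

theorem Fu_t (D : DM d l u H f) {M : ℕ} (hM1 : 1 ≤ M) (hM : M < l 0) (p : E m)
    (a : Fin N → ℂ) (z : E m) : Fu M u (Ht M d p a H) 0 z =
      sn (fun j => (1 / 8 : ℂ) * a j) ((1 / 8 : ℂ) * gf M (inner ℂ p z)) := by
  refine sn_ext (fun j => ?_) ?_
  · unfold Fu cut
    change ∑ k ∈ Finset.range (M + 1), Ht M d p a H k z j.castSucc = _
    have h1 : ∀ k ∈ Finset.range (M + 1), Ht M d p a H k z j.castSucc =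
        if k = 0 then (1 / 8 : ℂ) * a j else 0 := by
      intro k hk
      rw [Finset.mem_range] at hk
      unfold Ht
      rw [sn_c]
      have h2 : (if k ≤ d then 0 else H k z j) = 0 := by
        by_cases hkd : k ≤ d
        · rw [if_pos hkd]
        · rw [if_neg hkd]
          exact D.gap 0 (not_le.1 hkd) (by omega) z j
      rw [h2, add_zero]
      by_cases hk0 : k = 0
      · rw [if_pos hk0, if_pos hk0]
      · rw [if_neg hk0, if_neg hk0, mul_zero]
    rw [Finset.sum_congr rfl h1, Finset.sum_ite_eq' (Finset.range (M + 1)) 0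
      (fun _ => (1 / 8 : ℂ) * a j), if_pos (Finset.mem_range.2 (by omega))]
  · unfold Fu cut
    change ∑ k ∈ Finset.range (M + 1), Ht M d p a H k z (Fin.last N) = _
    unfold Ht
    simp_rw [sn_l]
    rw [← Finset.mul_sum, Finset.sum_range_succ, cf_sum hM1, cf_zero hM1 le_rfl, add_zero]

theorem et_t {M B0 : ℕ} (hMB : M = B0 * d) (hB0 : 1 ≤ B0) (i : ℕ) :
    et (Du M u) l i ≤ Real.sqrt B0 * et (Du d u) l i := by
  have h1 : 1 ≤ Real.sqrt B0 := Real.one_le_sqrt.2 (by exact_mod_cast hB0)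
  cases i with
  | zero =>
    unfold et
    change Real.sqrt M / Real.sqrt (l 0) ≤ Real.sqrt B0 * (Real.sqrt d / Real.sqrt (l 0))
    rw [hMB, Nat.cast_mul, Real.sqrt_mul (Nat.cast_nonneg _), mul_div_assoc]
  | succ i =>
    have e : et (Du M u) l (i + 1) = et (Du d u) l (i + 1) := rfl
    rw [e]
    have h2 := et_nonneg (Du d u) l (i + 1)
    nlinarith

theorem hm_t (D : DM d l u H f) (hd : 1 ≤ d) {M B0 : ℕ} (hM : M < l 0) (hMB : M = B0 * d)
    (hB0 : 1 ≤ B0) (p : E m) (a : Fin N → ℂ) {δ c S : ℝ} {K : ℕ} {W : Set ℕ} {s : ℕ → ℝ}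
    (B : HM δ c S K W s d l u H) :
    HM δ (Real.sqrt B0 * c) S K W s M l u (Ht M d p a H) := by
  have hdM : d ≤ M := by rw [hMB]; exact Nat.le_mul_of_pos_left d hB0
  have h1 : 1 ≤ Real.sqrt B0 := Real.one_le_sqrt.2 (by exact_mod_cast hB0)
  have hQ := Qu_t D hd hdM hM p a
  have hQn : ∀ i z, nn (Qu l u (Ht M d p a H) i z) = 1 / 8 * nn (Qu l u H i z) := by
    intro i z
    rw [hQ, nn_sn_z, Mix.nn_smul, norm_eighth]
  refine ⟨fun i => ?_, fun I => ?_, B.s0, B.s1, B.sW, fun i hi z hz => ?_, B.lg,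
    fun i hi z hz => ?_, fun z hz I => ?_⟩
  · exact (et_t hMB hB0 i).trans (mul_le_mul_of_nonneg_left (B.sup i) (by linarith))
  · refine le_trans ?_ (mul_le_mul_of_nonneg_left (B.gap I) (by linarith : 0 ≤ Real.sqrt B0))
    rw [Finset.mul_sum]
    refine Finset.sum_le_sum fun i _ => ?_
    refine (mul_le_mul_of_nonneg_left (et_t hMB hB0 i) (B.s0 i)).trans (le_of_eq ?_)
    ring
  · rw [hQn]
    have h2 := B.sQ i hi z hz
    have h3 := nn_nonneg (Qu l u H i z)
    linarith
  · have h2 := B.sm i hi z hz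
    rw [← nn_sq, hQn, mul_pow, nn_sq]
    have h3 : 0 ≤ nsq (Qu l u H i z) * (100 * Mix.Ad δ ^ 2) ^ 2 :=
      mul_nonneg (nsq_nonneg _) (sq_nonneg _)
    linarith
  · refine (Finset.sum_le_sum fun i _ => ?_).trans (B.sb z hz I)
    unfold wt
    by_cases hi : i ∈ W
    · rw [if_pos hi, if_pos hi, hQ, Fin.sum_univ_castSucc, sn_l, norm_zero, add_zero]
      refine Finset.sum_le_sum fun j _ => ?_
      rw [sn_c, norm_mul, norm_eighth]
      have := norm_nonneg (Qu l u H i z j)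
      linarith
    · rw [if_neg hi, if_neg hi]

end Pool.Agent.K9h23.Loc
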