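import Mathlib
import Pool.Agent.K9h23.Loc.Cst

/-!
Near a boundary point the low part of an expansion may be replaced by a constant: local solutions.
-/

set_option autoImplicit false

open Complex Set Metric Filter Topology
open scoped Real

namespace Pool.Agent.K9h23.Loc

open Pool.Agent.K9h23.Hom Pool.Agent.K9h23.Bnd Pool.Agent.K9h23.Mix
open Pool.Agent.K9h23.Lac (nsq nsq_nonneg nsq_cont nsq_c nn nn_nonneg nn_sq nn_add_le le_nsq
  nsq_smul' bd bd_le_nn comp_le_nn nsq_conj nn_le_comp Bal isOpen_Bal)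

variable {m N : ℕ} {d : ℕ} {l u : ℕ → ℕ} {H : ℕ → E m → Fin N → ℂ} {f : E m → Fin N → ℂ}

theorem near_F0 (D : DM d l u H f) (hd : 1 ≤ d) (hF : ∀ z, ‖z‖ ≤ 1 → nn (Fu d u H 0 z) ≤ 2)
    {p : E m} (hp : ‖p‖ = 1) {z : E m} (hz : ‖z‖ ≤ 1) :
    nn (fun j => Fu d u H 0 p j - Fu d u H 0 z j) ≤
      (N + 1) * (24 * Real.sqrt (d * ‖1 - (inner ℂ p z : ℂ)‖)) := by
  refine nn_le_comp (by positivity) fun j => ?_
  have h1 := Gr.lip (D := d) hd (D.Fg 0 j) (A := 2) (by norm_num)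
    (fun z hz => (comp_le_nn _ j).trans (hF z hz)) hp hz
  rw [norm_sub_rev]
  refine h1.trans (le_of_eq ?_)
  ring

theorem low_t (D : DM d l u H f) (hd : 1 ≤ d) {M B0 : ℕ} (hMB : M = B0 * d) {ρ0 : ℝ}
    (hB : 8 ≤ B0 * ρ0) {p : E m} (hp : ‖p‖ = 1) {δ : ℝ} (hδ : 0 < δ)
    (hδ1 : δ ≤ 1) (hρ : Real.sqrt ρ0 = δ / (96 * (N + 1)))
    (hF : ∀ z, ‖z‖ ≤ 1 → nn (Fu d u H 0 z) ≤ 2) (hlow : ∀ z, ‖z‖ < 1 → δ ≤ nn (f z))
    (z : E m) (hz : ‖z‖ < 1) : δ / 12 ≤ nn (ft M d p (Fu d u H 0 p) u H f z) := by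
  have hd0 : (0:ℝ) < d := by exact_mod_cast hd
  have hB01 : 1 ≤ B0 := by
    by_contra hcon
    have : B0 = 0 := by omega
    rw [this] at hB
    norm_num at hB
  have hM1 : 1 ≤ M := by
    rw [hMB]
    exact Nat.mul_pos hB01 hd
  have hB00 : (0:ℝ) < B0 := by exact_mod_cast hB01
  rcases lt_or_ge (d * ‖1 - (inner ℂ p z : ℂ)‖) ρ0 with h | h
  · have h1 := near_F0 D hd hF hp hz.le
    have h2 : Real.sqrt (d * ‖1 - (inner ℂ p z : ℂ)‖) ≤ δ / (96 * (N + 1)) := by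
      rw [← hρ]
      exact Real.sqrt_le_sqrt h.le
    have hN : (0:ℝ) < N + 1 := by positivity
    have h3 : (N + 1) * (24 * Real.sqrt (d * ‖1 - (inner ℂ p z : ℂ)‖)) ≤ δ / 4 := by
      calc (N + 1) * (24 * Real.sqrt (d * ‖1 - (inner ℂ p z : ℂ)‖)) ≤
            (N + 1) * (24 * (δ / (96 * (N + 1)))) := by gcongr
        _ = δ / 4 := by field_simp; ring
    have h4 : nn (f z) ≤ nn (fun j => Fu d u H 0 p j + (f z j - Fu d u H 0 z j)) +
        nn (fun j => Fu d u H 0 p j - Fu d u H 0 z j) := by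
      refine le_trans (le_of_eq ?_) (nn_sub_le _ _)
      congr 1
      funext j
      ring
    have h5 : nn (ft M d p (Fu d u H 0 p) u H f z) ≥
        nn (fun j => (1 / 8 : ℂ) * (Fu d u H 0 p j + (f z j - Fu d u H 0 z j))) := nn_sn_l _ _
    rw [Mix.nn_smul, norm_eighth] at h5
    have h6 := hlow z hz
    linarith
  · have h1 : 8 ≤ (M:ℝ) * ‖1 - (inner ℂ p z : ℂ)‖ := by
      rw [hMB, Nat.cast_mul, mul_assoc]
      exact hB.trans (mul_le_mul_of_nonneg_left h hB00.le)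
    have h2 := gf_far hM1 (inner_le_one' hp hz.le) h1
    have h3 := comp_le_nn (ft M d p (Fu d u H 0 p) u H f z) (Fin.last N)
    have e : ft M d p (Fu d u H 0 p) u H f z (Fin.last N) =
      (1 / 8 : ℂ) * gf M (inner ℂ p z) := sn_l _ _
    rw [e, norm_mul, norm_eighth] at h3
    linarith

/-- **Local solutions** near a boundary point, with `c` independent of `d`. -/
theorem local1 (m N K : ℕ) (hK : 1 ≤ K) {δ S : ℝ} (hδ : 0 < δ) (hδ1 : δ ≤ 1) (hS : 0 ≤ S) :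
    ∃ c : ℝ, 0 < c ∧ ∀ d : ℕ, 1 ≤ d → ∀ p : E m, ‖p‖ = 1 → ∃ C ρ : ℝ, 0 < ρ ∧
    ∀ (l u : ℕ → ℕ) (W : Set ℕ) (s : ℕ → ℝ) (H : ℕ → E m → Fin N → ℂ) (f : E m → Fin N → ℂ),
    DM d l u H f → (∀ z, ‖z‖ < 1 → δ ≤ nn (f z)) → HM (δ / 12) c S K W s d l u H →
    ∃ G : Fin N → E m → ℂ, (∀ j, DifferentiableOn ℂ (G j) (ball 0 1)) ∧
      (∀ j, ∀ z ∈ ball (0 : E m) 1, ‖G j z‖ ≤ C) ∧
      ∀ z ∈ ball (0 : E m) 1, ‖z - p‖ < ρ → ‖∑ j, f z j * G j z - 1‖ ≤ 1 / 2 := by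
  obtain ⟨c1, hc1, hc15, hbd⟩ := DM.bounds N hδ hδ1
  obtain ⟨C1, hC1, hm⟩ := mmain m (N + 1) K hK (δ := δ / 12) (by positivity) (by linarith)
  set P0 : ℝ := 400 * Mix.Ad (δ / 12) + (16 / δ) ^ 2 with hP0
  obtain ⟨cs, hcs, hm⟩ := hm P0 0 S (by rw [hP0]; nlinarith [sq_nonneg (16 / δ)]) le_rfl hS
  have hN1 : (0:ℝ) < N + 1 := by positivity
  set x : ℝ := δ / (96 * (N + 1)) with hx
  have hx0 : 0 < x := by positivity
  set ρ0 : ℝ := x ^ 2 with hρ0
  have hρ00 : 0 < ρ0 := by positivity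
  have hρ : Real.sqrt ρ0 = x := Real.sqrt_sq hx0.le
  obtain ⟨B1, hB1⟩ := exists_nat_ge (8 / ρ0)
  set B0 : ℕ := B1 + 1 with hB0
  have hB01 : 1 ≤ B0 := by omega
  have hB : 8 ≤ (B0:ℝ) * ρ0 := by
    rw [div_le_iff₀ hρ00] at hB1
    refine hB1.trans (mul_le_mul_of_nonneg_right ?_ hρ00.le)
    rw [hB0]; push_cast; linarith
  have hB00 : (0:ℝ) < B0 := by exact_mod_cast hB01
  set r : ℝ := Real.sqrt B0 with hr
  have hr0 : 0 < r := Real.sqrt_pos.2 hB00
  have hr2 : r ^ 2 = B0 := Real.sq_sqrt hB00.le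
  set c : ℝ := min c1 (min (cs / r) (1 / (2 * r))) with hc
  have hc0 : 0 < c := lt_min hc1 (lt_min (by positivity) (by positivity))
  have hca : c ≤ c1 := min_le_left _ _
  have hcb : c ≤ cs / r := (min_le_right _ _).trans (min_le_left _ _)
  have hcc : c ≤ 1 / (2 * r) := (min_le_right _ _).trans (min_le_right _ _)
  refine ⟨c, hc0, fun d hd p hp => ?_⟩
  have hd0 : (0:ℝ) < d := by exact_mod_cast hd
  set M : ℕ := B0 * d with hM
  have hM1 : 1 ≤ M := Nat.mul_pos hB01 hd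
  have hM0 : (0:ℝ) < M := by exact_mod_cast hM1
  set C' : ℝ := P0 * Real.exp (C1 * S + 1) * Real.exp (4 * Mix.Ad (δ / 12)) with hC'
  set X : ℝ := M + (N + 1) * (24 * Real.sqrt d) with hX
  have hX0 : 0 < X := by positivity
  set Y : ℝ := X * Real.sqrt C' + 1 with hY
  have hY0 : 0 < Y := by positivity
  refine ⟨Real.sqrt C', min 1 ((1 / Y) ^ 2), lt_min one_pos (by positivity),
    fun l u W s H f D hlow B => ?_⟩
  have hl1 : ∀ i, 1 ≤ l i := fun i => by have := D.Du_lt i; omega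
  have hFb : ∀ z, ‖z‖ ≤ 1 → δ / 2 ≤ nn (Fu d u H 0 z) ∧ nn (Fu d u H 0 z) ≤ 2 :=
    hbd m d l u H f D hlow (fun i => (B.sup i).trans hca) 0 hd
  have hF : ∀ z, ‖z‖ ≤ 1 → nn (Fu d u H 0 z) ≤ 2 := fun z hz => (hFb z hz).2
  have hMl : M < l 0 := by
    have h1 := gap_term hl1 B.sup 0
    change (d : ℝ) ≤ c ^ 2 * l 0 at h1
    have h2 : c ^ 2 * B0 ≤ 1 / 4 := by
      rw [le_div_iff₀ (by positivity)] at hcc
      have h3 : (c * (2 * r)) ^ 2 ≤ 1 := pow_le_one₀ (by positivity) hcc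
      have h4 : (c * (2 * r)) ^ 2 = 4 * (c ^ 2 * r ^ 2) := by ring
      rw [h4, hr2] at h3
      linarith
    have hl0 : (0:ℝ) < l 0 := by exact_mod_cast hl1 0
    have h5 : (M : ℝ) < l 0 := by
      calc (M : ℝ) = B0 * d := by rw [hM]; push_cast; ring
        _ ≤ B0 * (c ^ 2 * l 0) := mul_le_mul_of_nonneg_left h1 hB00.le
        _ = (c ^ 2 * B0) * l 0 := by ring
        _ ≤ 1 / 4 * l 0 := mul_le_mul_of_nonneg_right h2 hl0.le
        _ < l 0 := by linarith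
    exact_mod_cast h5
  have hdM : d ≤ M := Nat.le_mul_of_pos_left d hB01
  obtain ⟨a, ha⟩ : ∃ a, a = Fu d u H 0 p := ⟨_, rfl⟩
  have ha1 : δ / 2 ≤ nn a := by rw [ha]; exact (hFb p hp.le).1
  have ha2 : nn a ≤ 2 := by rw [ha]; exact (hFb p hp.le).2
  have hna : 0 < nsq a := by
    rw [← nn_sq]
    have : 0 < nn a := by linarith
    positivity
  have D' := dm_t D hd hdM hMl hp ha2 hF
  have B' : HM (δ / 12) cs S K W s M l u (Ht M d p a H) := by
    have h1 := hm_t D hd hMl hM hB01 p a B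
    rw [← hr] at h1
    have h2 : r * c ≤ cs := by
      rw [le_div_iff₀ hr0] at hcb
      linarith
    exact ⟨fun i => (h1.sup i).trans h2, fun I => (h1.gap I).trans h2,
      h1.s0, h1.s1, h1.sW, h1.sQ, h1.lg, h1.sm, h1.sb⟩
  have hlow' : ∀ z, ‖z‖ < 1 → δ / 12 ≤ nn (ft M d p a u H f z) := by
    rw [ha]
    exact low_t D hd hM hB hp hδ hδ1 (by rw [hρ]) hF hlow
  set h0 : E m → Fin (N + 1) → ℂ := fun _ =>
    sn (fun j => (8 : ℂ) * ((nsq a : ℂ)⁻¹ * starRingEnd ℂ (a j))) 0 with hh0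
  obtain ⟨g, g1, g2, g3⟩ := hm M l u W s (Ht M d p a H) (ft M d p a u H f) hM1 D' hlow' B' h0
    (fun j => ⟨‖h0 0 j‖, by rw [zero_mul]; exact Lc.const (h0 0 j)⟩) (fun z hz => by
      rw [Fu_t D hM1 hMl, hh0, bd_sn, mul_zero, add_zero]
      unfold bd
      have h1 : ∀ j ∈ (Finset.univ : Finset (Fin N)), (1 / 8 : ℂ) * a j *
          ((8 : ℂ) * ((nsq a : ℂ)⁻¹ * starRingEnd ℂ (a j))) =
          (nsq a : ℂ)⁻¹ * (a j * starRingEnd ℂ (a j)) := fun j _ => by ring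
      rw [Finset.sum_congr rfl h1, ← Finset.mul_sum, ← nsq_c, inv_mul_cancel₀]
      exact_mod_cast hna.ne') (fun z hz => by
      have h1 : nsq (h0 z) ≤ (16 / δ) ^ 2 := by
        rw [hh0]
        beta_reduce
        rw [nsq_sn, norm_zero]
        have e1 : (fun j => (8 : ℂ) * ((nsq a : ℂ)⁻¹ * starRingEnd ℂ (a j))) =
            fun j => ((8 : ℂ) * (nsq a : ℂ)⁻¹) * starRingEnd ℂ (a j) := by
          funext j; ring
        rw [e1, nsq_smul', nsq_conj, norm_mul, norm_inv, Complex.norm_real,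
          Real.norm_of_nonneg hna.le]
        have e2 : ‖(8:ℂ)‖ = 8 := by norm_num
        rw [e2]
        have e3 : (8 * (nsq a)⁻¹) ^ 2 * nsq a + 0 ^ 2 = 64 / nsq a := by
          field_simp
          ring
        rw [e3]
        have e4 : (δ / 2) ^ 2 ≤ nsq a := by
          rw [← nn_sq]
          exact pow_le_pow_left₀ (by positivity) ha1 2
        calc 64 / nsq a ≤ 64 / (δ / 2) ^ 2 := by gcongr
          _ = (16 / δ) ^ 2 := by field_simp; ring
      have h2 : Real.exp (-(Mix.Ad (δ / 12) * nsq (Fu M u (Ht M d p a H) 0 z))) ≤ 1 := by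
        rw [Real.exp_le_one_iff]
        have := nsq_nonneg (Fu M u (Ht M d p a H) 0 z)
        have hA4 := Ad_4 (δ := δ / 12)
        nlinarith
      have hA4 := Ad_4 (δ := δ / 12)
      calc nsq (h0 z) * Real.exp (-(Mix.Ad (δ / 12) * nsq (Fu M u (Ht M d p a H) 0 z))) ≤
            nsq (h0 z) * 1 := mul_le_mul_of_nonneg_left h2 (nsq_nonneg _)
        _ ≤ P0 := by rw [hP0]; linarith)
  have hnn : ∀ z : E m, ‖z‖ < 1 → nn (fun j => g j z.ofLp) ≤ Real.sqrt C' := fun z hz =>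
    Real.sqrt_le_sqrt (g2 _ (ball_ofLp hz))
  have hsn : ∀ z : E m, (fun j => g j z.ofLp) =
      sn (fun j => g j.castSucc z.ofLp) (g (Fin.last N) z.ofLp) := fun z =>
    sn_ext (fun _ => rfl) rfl
  refine ⟨fun j z => (1 / 8 : ℂ) * g j.castSucc z.ofLp, fun j => ?_, fun j z hz => ?_,
    fun z hz hzp => ?_⟩
  · have h1 : DifferentiableOn ℂ (fun z : E m => g j.castSucc z.ofLp) (ball 0 1) := by
      refine (g1 j.castSucc).comp
        ((PiLp.continuousLinearEquiv 2 ℂ (fun _ : Fin m => ℂ))).differentiable.differentiableOn ?_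
      intro z hz
      exact ball_ofLp (mem_ball_zero_iff.1 hz)
    exact h1.const_mul _
  · beta_reduce
    rw [mem_ball_zero_iff] at hz
    rw [norm_mul, norm_eighth]
    have h1 := (comp_le_nn (fun j => g j z.ofLp) j.castSucc).trans (hnn z hz)
    have h2 := norm_nonneg (g j.castSucc z.ofLp)
    beta_reduce at h1
    linarith
  · rw [mem_ball_zero_iff] at hz
    have h1 := g3 _ (ball_ofLp hz)
    have e : (WithLp.toLp 2 z.ofLp : E m) = z := rfl
    rw [e, Fin.sum_univ_castSucc] at h1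
    unfold ft at h1
    simp_rw [sn_c, sn_l] at h1
    have h2 : ∑ j, f z j * ((1 / 8 : ℂ) * g j.castSucc z.ofLp) - 1 =
        -((1 / 8 : ℂ) * (bd (fun j => a j - Fu d u H 0 z j) (fun j => g j.castSucc z.ofLp) +
          gf M (inner ℂ p z) * g (Fin.last N) z.ofLp)) := by
      have h3 : ∑ j, (f z j * ((1 / 8 : ℂ) * g j.castSucc z.ofLp) -
          (1 / 8 : ℂ) * (a j + (f z j - Fu d u H 0 z j)) * g j.castSucc z.ofLp) =
          ∑ j, -((1 / 8 : ℂ) * ((a j - Fu d u H 0 z j) * g j.castSucc z.ofLp)) :=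
        Finset.sum_congr rfl fun j _ => by ring
      calc ∑ j, f z j * ((1 / 8 : ℂ) * g j.castSucc z.ofLp) - 1 =
          ∑ j, f z j * ((1 / 8 : ℂ) * g j.castSucc z.ofLp) -
          (∑ j, (1 / 8 : ℂ) * (a j + (f z j - Fu d u H 0 z j)) * g j.castSucc z.ofLp +
            (1 / 8 : ℂ) * gf M (inner ℂ p z) * g (Fin.last N) z.ofLp) := by rw [h1]
        _ = _ := by
          unfold bd
          rw [mul_add, Finset.mul_sum, neg_add, ← sub_sub, ← Finset.sum_sub_distrib,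
            ← Finset.sum_neg_distrib, h3]
          ring
    rw [h2, norm_neg, norm_mul, norm_eighth]
    have hw : ‖1 - (inner ℂ p z : ℂ)‖ ≤ ‖z - p‖ := by
      have e1 : 1 - (inner ℂ p z : ℂ) = inner ℂ p (p - z) := by
        rw [inner_sub_right, inner_self_eq_norm_sq_to_K, hp]
        norm_num
      rw [e1, norm_sub_rev]
      refine (norm_inner_le_norm _ _).trans ?_
      rw [hp, one_mul]
    set t : ℝ := ‖1 - (inner ℂ p z : ℂ)‖ with ht
    have ht0 : 0 ≤ t := norm_nonneg _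
    have ht1 : t ≤ 1 := (hw.trans hzp.le).trans (min_le_left _ _)
    have ht2 : t ≤ (1 / Y) ^ 2 := (hw.trans hzp.le).trans (min_le_right _ _)
    have hst : Real.sqrt t ≤ 1 / Y := by
      rw [Real.sqrt_le_left (by positivity)]
      exact ht2
    have hs1 : Real.sqrt t ≤ 1 := 
      Real.sqrt_le_iff.2 ⟨zero_le_one, by rw [one_pow]; exact ht1⟩
    have hs0 := Real.sqrt_nonneg t
    have hss : t ≤ Real.sqrt t := by
      have h5 : Real.sqrt t ^ 2 = t := Real.sq_sqrt ht0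
      nlinarith
    have h4 : nn (fun j => a j - Fu d u H 0 z j) ≤ (N + 1) * (24 * Real.sqrt d) * Real.sqrt t := by
      have h5 := near_F0 D hd hF hp hz.le
      rw [← ht, Real.sqrt_mul hd0.le] at h5
      rw [ha]
      refine h5.trans (le_of_eq ?_)
      ring
    have h6 : nn (fun j => g j.castSucc z.ofLp) ≤ Real.sqrt C' := by
      refine le_trans ?_ (hnn z hz)
      rw [hsn z]
      exact nn_sn_l _ _
    have h7 : ‖g (Fin.last N) z.ofLp‖ ≤ Real.sqrt C' :=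
      (comp_le_nn (fun j => g j z.ofLp) (Fin.last N)).trans (hnn z hz)
    have h8 : ‖gf M (inner ℂ p z)‖ ≤ M * Real.sqrt t :=
      (gf_near hM1 (inner_le_one' hp hz.le)).trans (mul_le_mul_of_nonneg_left hss hM0.le)
    have hC0 := Real.sqrt_nonneg C'
    have h9 : ‖bd (fun j => a j - Fu d u H 0 z j) (fun j => g j.castSucc z.ofLp) +
          gf M (inner ℂ p z) * g (Fin.last N) z.ofLp‖ ≤ X * Real.sqrt C' * Real.sqrt t := by
      refine (norm_add_le _ _).trans ?_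
      rw [norm_mul]
      have h10 := (bd_le_nn (fun j => a j - Fu d u H 0 z j)
        (fun j => g j.castSucc z.ofLp)).trans
        (mul_le_mul h4 h6 (nn_nonneg _) (by positivity))
      have h11 := mul_le_mul h8 h7 (norm_nonneg _) (by positivity)
      refine (add_le_add h10 h11).trans (le_of_eq ?_)
      rw [hX]
      ring
    have h12 : X * Real.sqrt C' * Real.sqrt t ≤ 1 := by
      calc X * Real.sqrt C' * Real.sqrt t ≤ Y * (1 / Y) := by
            refine mul_le_mul ?_ hst hs0 hY0.le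
            rw [hY]; linarith
        _ = 1 := mul_one_div_cancel hY0.ne'
    linarith

end Pool.Agent.K9h23.Loc
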