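import Mathlib
import Pool.Agent.TH310.Cor.Step

/-!
Uniform local to global principle: uniform approximate solutions near each boundary point, which
are bounded and holomorphic on the whole ball, give uniform solutions.
-/

set_option autoImplicit false

open Metric Set Filter Topology WeakDual

namespace Pool.Agent.K9h23.Loc

open Pool.Agent.H326R3.CB (Bt)
open Pool.Agent.TH310.Cor

variable {m : ℕ}

theorem loc_unif {I ι : Type} [Fintype ι] {F : I → ι → V m → ℂ} (hF : ∀ i j, HB (F i j))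
    {δ : ℝ} (hδ : 0 < δ) (hlow : ∀ i, ∀ z ∈ ball (0 : V m) 1, δ ≤ ∑ j, ‖F i j z‖)
    (hloc : ∀ q : V m, ‖q‖ = 1 → ∃ C ρ : ℝ, 0 < ρ ∧ ∀ i, ∃ g : ι → V m → ℂ,
      (∀ j, DifferentiableOn ℂ (g j) (ball 0 1)) ∧ (∀ j, ∀ z ∈ ball (0 : V m) 1, ‖g j z‖ ≤ C) ∧
      ∀ z ∈ ball (0 : V m) 1, ‖z - q‖ < ρ → ‖∑ j, F i j z * g j z - 1‖ ≤ 1 / 2) : Solv F := by
  classical
  by_contra hns
  let tJ : TopologicalSpace I := ⊥
  have dJ : DiscreteTopology I := ⟨rfl⟩
  obtain ⟨χ, hχ⟩ := exists_zero hF hns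
  obtain ⟨q, hq⟩ : ∃ q, q = pt χ := ⟨_, rfl⟩
  have hq1 : ‖q‖ = 1 := by
    rcases lt_or_eq_of_le (pt_norm χ) with h3 | h3
    · exfalso
      have hpt : pt χ ∈ ball (0 : V m) 1 := by rw [mem_ball_zero_iff]; exact h3
      refine char_index (ι := ι) χ (fun o x => F x o (pt χ)) (C := 1)
        (fun o x => (hF x o).2 _ hpt) hδ (fun x => hlow x _ hpt) ?_
      intro o
      have h4 := char_interior χ h3 (El (f := fun x => F x o) (fun x => hF x o))
      rw [hχ o] at h4
      refine Eq.trans (congrArg χ ?_) h4.symm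
      exact ext' fun x => rfl
    · rw [hq]; exact h3
  obtain ⟨C, ρ, hρ, hg⟩ := hloc q hq1
  choose g hgd hgb hid using hg
  have hu0 : χ (∑ j, El (f := fun x => F x j) (fun x => hF x j) *
      mk (f := fun x => g x j) (fun x => hgd x j) (C := C) (fun x => hgb x j)) = 0 := by
    rw [map_sum]
    refine Finset.sum_eq_zero fun j _ => ?_
    rw [map_mul, hχ j, zero_mul]
  have hu1 : ‖χ (∑ j, El (f := fun x => F x j) (fun x => hF x j) *
      mk (f := fun x => g x j) (fun x => hgd x j) (C := C) (fun x => hgb x j) - 1)‖ ≤ 1 / 2 := by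
    refine char_boundary χ (by rw [← hq]; exact hq1) _ (ρ := ρ) hρ (by norm_num) univ
      (by rw [Id_univ, map_one]) ?_
    intro x _ z hz
    rw [← hq] at hz
    refine le_trans (le_of_eq ?_) (hid x z z.2 hz)
    have h4 : (∑ j, El (f := fun x => F x j) (fun x => hF x j) *
        mk (f := fun x => g x j) (fun x => hgd x j) (C := C) (fun x => hgb x j) - 1 :
        HI I m).1 (x, z) = (∑ j, El (f := fun x => F x j) (fun x => hF x j) *
        mk (f := fun x => g x j) (fun x => hgd x j) (C := C) (fun x => hgb x j) :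
        HI I m).1 (x, z) - 1 := rfl
    rw [h4, Pool.Agent.TH310.Cor.sum_apply]
    rfl
  rw [map_sub, hu0, map_one, zero_sub, norm_neg, norm_one] at hu1
  norm_num at hu1

end Pool.Agent.K9h23.Loc
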