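import Mathlib
import Pool.Agent.K9h23.Loc.Unif
import Pool.Agent.K9h23.Loc.Cs2
import Pool.Agent.K9h23.Mix.Fn5

/-!
From local to global solutions; the constant `c` is independent of `d`.
-/

set_option autoImplicit false

open Complex Set Metric Filter Topology
open scoped Real

namespace Pool.Agent.K9h23.Loc

open Pool.Agent.K9h23.Hom Pool.Agent.K9h23.Bnd Pool.Agent.K9h23.Mix
open Pool.Agent.K9h23.Lac (nsq nsq_nonneg nsq_cont nsq_c nn nn_nonneg nn_sq nn_add_le le_nsq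
  nsq_smul' bd bd_le_nn comp_le_nn nsq_conj nn_le_comp Bal isOpen_Bal MP)

section

variable {m N : ℕ} {d : ℕ} {l u : ℕ → ℕ} {H : ℕ → E m → Fin N → ℂ} {f : E m → Fin N → ℂ}

theorem fdiff (D : DM d l u H f) (hF : ∀ i z, ‖z‖ ≤ 1 → nn (Fu d u H i z) ≤ 2) (j : Fin N) :
    DifferentiableOn ℂ (fun z => f z j) (ball 0 1) := by
  obtain ⟨g, hg, -, hlim⟩ := Pool.Agent.H720R2.Cor.ultra_lim (isOpen_ball (x := (0 : E m)) (ε := 1))
    (C := 2) (Ultrafilter.of (atTop : Filter ℕ)) (fun i z => Fu d u H i z j)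
    (fun i => (D.Fg i j).diff.differentiableOn) (fun i z hz => by
      rw [mem_ball_zero_iff] at hz
      exact (comp_le_nn _ j).trans (hF i z hz.le))
  refine hg.congr fun z hz => ?_
  have h1 := D.tend (mem_ball_zero_iff.1 hz) j
  exact tendsto_nhds_unique (h1.mono_left (Ultrafilter.of_le _)) (hlim z hz)

/-- **Global solutions**, with `c` independent of `d`. -/
theorem glob (m N K : ℕ) (hK : 1 ≤ K) {δ S : ℝ} (hδ : 0 < δ) (hδ1 : δ ≤ 1) (hS : 0 ≤ S) :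
    ∃ c : ℝ, 0 < c ∧ ∀ d : ℕ, 1 ≤ d → ∃ C : ℝ,
    ∀ (l u : ℕ → ℕ) (W : Set ℕ) (s : ℕ → ℝ) (H : ℕ → E m → Fin N → ℂ) (f : E m → Fin N → ℂ),
    DM d l u H f → (∀ z, ‖z‖ < 1 → δ ≤ nn (f z)) → HM (δ / 12) c S K W s d l u H →
    ∃ G : Fin N → E m → ℂ, (∀ j, DifferentiableOn ℂ (G j) (ball 0 1)) ∧
      (∀ j, ∀ z ∈ ball (0 : E m) 1, ‖G j z‖ ≤ C) ∧
      ∀ z ∈ ball (0 : E m) 1, ∑ j, f z j * G j z = 1 := by
  obtain ⟨c1, hc1, hc15, hbd⟩ := DM.bounds N hδ hδ1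
  obtain ⟨c, hc, hloc⟩ := local1 m N K hK hδ hδ1 hS
  refine ⟨min c c1, lt_min hc hc1, fun d hd => ?_⟩
  let I : Type := {x : (ℕ → ℕ) × (ℕ → ℕ) × Set ℕ × (ℕ → ℝ) × (ℕ → E m → Fin N → ℂ) ×
    (E m → Fin N → ℂ) // DM d x.1 x.2.1 x.2.2.2.2.1 x.2.2.2.2.2 ∧
      (∀ z, ‖z‖ < 1 → δ ≤ nn (x.2.2.2.2.2 z)) ∧
      HM (δ / 12) (min c c1) S K x.2.2.1 x.2.2.2.1 d x.1 x.2.1 x.2.2.2.2.1}
  have h1 : Pool.Agent.TH310.Cor.Solv (I := I) (fun x (j : Fin N) z => x.1.2.2.2.2.2 z j) := by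
    refine loc_unif (δ := δ ^ 2) (fun x j => ⟨?_, ?_⟩) (by positivity) (fun x z hz => ?_)
      (fun p hp => ?_)
    · obtain ⟨D, hlow, B⟩ := x.2
      exact fdiff D (fun i z hz => (hbd m d _ _ _ _ D hlow
        (fun i => (B.sup i).trans (min_le_right _ _)) i (hd.trans (D.Du_ge i)) z hz).2) j
    · intro z hz
      rw [mem_ball_zero_iff] at hz
      exact (comp_le_nn _ j).trans (x.2.1.fb z hz)
    · rw [mem_ball_zero_iff] at hz
      have h2 := x.2.2.1 z hz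
      have h3 := x.2.1.fb z hz
      have h4 : δ ^ 2 ≤ nsq (x.1.2.2.2.2.2 z) := by
        rw [← nn_sq]
        exact pow_le_pow_left₀ hδ.le h2 2
      refine h4.trans ?_
      unfold nsq
      refine Finset.sum_le_sum fun j _ => ?_
      have h5 := (comp_le_nn (x.1.2.2.2.2.2 z) j).trans h3
      have h6 := norm_nonneg (x.1.2.2.2.2.2 z j)
      nlinarith
    · obtain ⟨C, ρ, hρ, h⟩ := hloc d hd p hp
      refine ⟨C, ρ, hρ, fun x => ?_⟩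
      obtain ⟨D, hlow, B⟩ := x.2
      exact h _ _ _ _ _ _ D hlow ⟨fun i => (B.sup i).trans (min_le_left _ _),
        fun I => (B.gap I).trans (min_le_left _ _), B.s0, B.s1, B.sW, B.sQ, B.lg, B.sm, B.sb⟩
  obtain ⟨C, hC⟩ := h1
  refine ⟨C, fun l u W s H f D hlow B => ?_⟩
  exact hC ⟨(l, u, W, s, H, f), D, hlow, B⟩

end

variable {n N : ℕ}

theorem Ad_mono {δ : ℝ} (hδ : 0 < δ) : Mix.Ad δ ≤ Mix.Ad (δ / 12) := by
  unfold Mix.Ad
  have h1 : 64 / (δ / 12) ^ 2 = 144 * (64 / δ ^ 2) := by field_simp; norm_num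
  rw [h1]
  have h2 : 0 ≤ 64 / δ ^ 2 := by positivity
  linarith

theorem sm_mono {δ : ℝ} (hδ : 0 < δ) {x : ℝ} (hx : 0 ≤ x)
    (h : x * (100 * Mix.Ad (δ / 12) ^ 2) ^ 2 ≤ 1) : x * (100 * Mix.Ad δ ^ 2) ^ 2 ≤ 1 := by
  refine le_trans ?_ h
  have h1 := Ad_mono hδ
  have h2 := Ad_4 (δ := δ)
  gcongr

/-- the theorem for all `d`, with `c` independent of `d` -/
theorem qmain (n N K : ℕ) (hK : 1 ≤ K) {δ : ℝ} (hδ : 0 < δ) (hδ1 : δ ≤ 1)
    {S : ℝ} (hS : 0 ≤ S) : ∃ c : ℝ, 0 < c ∧ ∀ d : ℕ, ∃ C : ℝ,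
    ∀ (l u : ℕ → ℕ) (W : Set ℕ) (s : ℕ → ℝ)
    (P : ℕ → Fin N → MP n) (f : Fin N → (Fin n → ℂ) → ℂ), PD δ d l u P f →
    HM (δ / 12) c S K W s d l u (HH P) → SB C f := by
  obtain ⟨c0, hc0, C0, h0⟩ := pmain n N 0 K hK hδ hδ1 hS
  obtain ⟨c, hc, hg⟩ := glob n N K hK hδ hδ1 hS
  refine ⟨min c0 c, lt_min hc0 hc, fun d => ?_⟩
  rcases Nat.eq_zero_or_pos d with hd0 | hd
  · subst hd0
    refine ⟨C0, fun l u W s P f D B => h0 l u W s P f D ⟨fun i => (B.sup i).trans (min_le_left _ _),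
      fun I => (B.gap I).trans (min_le_left _ _), B.s0, B.s1, B.sW, B.sQ, B.lg,
      fun i hi z hz => sm_mono hδ (nsq_nonneg _) (B.sm i hi z hz), B.sb⟩⟩
  · obtain ⟨C, hC⟩ := hg d hd
    refine ⟨N * C ^ 2, fun l u W s P f D B => ?_⟩
    obtain ⟨G, h1, h2, h3⟩ := hC l u W s (HH P) _ D.dm D.low
      ⟨fun i => (B.sup i).trans (min_le_right _ _),
      fun I => (B.gap I).trans (min_le_right _ _), B.s0, B.s1, B.sW, B.sQ, B.lg, B.sm, B.sb⟩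
    refine ⟨fun j z => G j (WithLp.toLp 2 z), fun j => ?_, fun z hz => ?_, fun z hz => ?_⟩
    · refine (h1 j).comp ((PiLp.continuousLinearEquiv 2 ℂ
        (fun _ : Fin n => ℂ)).symm).differentiable.differentiableOn ?_
      intro z hz
      exact mem_ball_zero_iff.2 (toLp_lt hz)
    · unfold nsq
      refine (Finset.sum_le_card_nsmul _ _ (C ^ 2) fun j _ => ?_).trans (le_of_eq ?_)
      · exact pow_le_pow_left₀ (norm_nonneg _)
          (h2 j _ (mem_ball_zero_iff.2 (toLp_lt hz))) 2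
      · rw [nsmul_eq_mul, Finset.card_univ, Fintype.card_fin]
    · exact h3 _ (mem_ball_zero_iff.2 (toLp_lt hz))

end Pool.Agent.K9h23.Loc
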